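import Pool.Agent.X36.Apt

/-!
# There are infinitely many primitive sets of primes
-/

set_option autoImplicit false

namespace Pool.Agent.Results.MP_a22f36_nt.InfinitelyManyPrimitive

open Pool.Agent.X36.Apt

/-- There are infinitely many primitive sets of primes. -/
theorem result : {P : Finset ℕ | Primitive P}.Infinite :=
  infinite_primitive

end Pool.Agent.Results.MP_a22f36_nt.InfinitelyManyPrimitive
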